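import Pool.Agent.Lib.MP_b7c8b0_gt.Yes
import Pool.Agent.Lib.MP_b7c8b0_gt.No
import Pool.Agent.Lib.MP_b7c8b0_gt.Stmt

namespace Pool.Agent.Results.MP_b7c8b0_gt.Classification

open Pool.Agent.Lib.MP_b7c8b0_gt

/-- For `n ≥ 1` the `(2n+1)`-sphere has a prelegendrian embedding in complex `(2n+1)`-space with
the standard fat distribution if and only if `n = 1`. -/
theorem result (n : ℕ) (hn : 1 ≤ n) :
    HasPreisotropicSphere (2 * n + 1) (Dstd (n := n)) ↔ n = 1 := by
  rw [hasPre_iff]
  constructor
  · intro h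
    by_contra h1
    exact no_emb (by omega) h
  · rintro rfl
    exact yes_one

end Pool.Agent.Results.MP_b7c8b0_gt.Classification
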